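import Pool.Agent.Helper43.GD.St

/-! Project GD (helper43), MP_b3ce06_al: module EX -/

set_option autoImplicit false

namespace Pool.Agent.Helper66.GD

open Pool.Agent.Helper43.GD

theorem closure_form {R : Type} [Ring R] (T : R) (hT2 : T * T + T = 1) (p : R)
    (hp : p ∈ Subring.closure {T}) : ∃ m n : ℤ, p = (m : R) + (n : R) * T := by
  have hTT : T * T = 1 - T := eq_sub_of_add_eq hT2
  have key : ∃ m n : ℤ, p = m • (1 : R) + n • T := by
    induction hp using Subring.closure_induction with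
    | mem y hy =>
      rw [Set.mem_singleton_iff] at hy
      exact ⟨0, 1, by rw [hy]; module⟩
    | zero => exact ⟨0, 0, by module⟩
    | one => exact ⟨1, 0, by module⟩
    | add y z _ _ ihy ihz =>
      obtain ⟨m, n, rfl⟩ := ihy
      obtain ⟨m', n', rfl⟩ := ihz
      exact ⟨m + m', n + n', by module⟩
    | neg y _ ih =>
      obtain ⟨m, n, rfl⟩ := ih
      exact ⟨-m, -n, by module⟩
    | mul y z _ _ ihy ihz =>
      obtain ⟨m, n, rfl⟩ := ihy
      obtain ⟨m', n', rfl⟩ := ihz
      refine ⟨m * m' + n * n', m * n' + n * m' - n * n', ?_⟩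
      rw [add_mul, mul_add, mul_add]
      simp only [smul_mul_assoc, mul_smul_comm, one_mul, mul_one, hTT]
      module
  obtain ⟨m, n, h⟩ := key
  exact ⟨m, n, by rw [h, zsmul_eq_mul, zsmul_eq_mul, mul_one]⟩

theorem hEX : StEX := by
  intro G _ M a t h1 hM hc1
  set b : G := cj a t 1 with hb
  have hbt : b = t⁻¹ * a * t := by
    rw [hb]; unfold cj; simp
  have hct : cj a t 2 = t⁻¹ * b * t := by
    rw [hbt]; unfold cj
    rw [zpow_neg, show (2 : ℤ) = 1 + 1 from rfl, zpow_add, zpow_one]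
    group
  have hMt : cj a t (M : ℤ) = t ^ (-(M : ℤ)) * a * t ^ (M : ℤ) := rfl
  rw [hct] at h1
  let U : Subgroup G := Subgroup.closure {a, b}
  have hcomm : ∀ x ∈ ({a, b} : Set G), ∀ y ∈ ({a, b} : Set G), x * y = y * x := by
    rintro x (rfl | rfl) y (rfl | rfl)
    · rfl
    · exact hc1
    · exact hc1.symm
    · rfl
  letI : CommGroup U := Subgroup.closureCommGroupOfComm hcomm
  have ha : a ∈ U := Subgroup.subset_closure (by simp)
  have hbU : b ∈ U := Subgroup.subset_closure (by simp)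
  have hUc : ∀ x ∈ U, ∀ y ∈ U, x * y = y * x := by
    intro x hx y hy
    have e : (⟨x, hx⟩ : U) * ⟨y, hy⟩ = ⟨y, hy⟩ * ⟨x, hx⟩ := mul_comm _ _
    exact congrArg Subtype.val e
  have hcU : t⁻¹ * b * t ∈ U := by
    have e : t⁻¹ * b * t = b⁻¹ * a := by
      have := h1
      rw [eq_inv_mul_iff_mul_eq]
      exact this.symm
    rw [e]
    exact U.mul_mem (U.inv_mem hbU) ha
  have hUt : ∀ u ∈ U, t⁻¹ * u * t ∈ U := by
    intro u hu
    induction hu using Subgroup.closure_induction with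
    | mem x hx =>
      rcases hx with rfl | hx
      · rw [← hbt]; exact hbU
      · rw [Set.mem_singleton_iff] at hx
        rw [hx]; exact hcU
    | one => simp
    | mul x y _ _ ihx ihy =>
      have : t⁻¹ * (x * y) * t = (t⁻¹ * x * t) * (t⁻¹ * y * t) := by group
      rw [this]; exact U.mul_mem ihx ihy
    | inv x _ ih =>
      have : t⁻¹ * x⁻¹ * t = (t⁻¹ * x * t)⁻¹ := by group
      rw [this]; exact U.inv_mem ih
  -- the quadratic relation on `U`
  have hq : ∀ u ∈ U, (t⁻¹ * (t⁻¹ * u * t) * t) * (t⁻¹ * u * t) = u := by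
    intro u hu
    induction hu using Subgroup.closure_induction with
    | mem x hx =>
      rcases hx with rfl | hx
      · rw [← hbt, hUc _ hcU _ hbU]; exact h1.symm
      · rw [Set.mem_singleton_iff] at hx
        rw [hx]
        have e1 : t⁻¹ * (t⁻¹ * b * t) * t * (t⁻¹ * b * t) = t⁻¹ * ((t⁻¹ * b * t) * b) * t := by
          group
        rw [e1, hUc _ hcU _ hbU, ← h1, ← hbt]
    | one => simp
    | mul x y hx hy ihx ihy =>
      have e := hUc _ (hUt _ hx) _ (hUt _ (hUt _ hy))
      calc (t⁻¹ * (t⁻¹ * (x * y) * t) * t) * (t⁻¹ * (x * y) * t)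
          = (t⁻¹ * (t⁻¹ * x * t) * t) * ((t⁻¹ * (t⁻¹ * y * t) * t) * (t⁻¹ * x * t)) *
            (t⁻¹ * y * t) := by group
        _ = (t⁻¹ * (t⁻¹ * x * t) * t) * ((t⁻¹ * x * t) * (t⁻¹ * (t⁻¹ * y * t) * t)) *
            (t⁻¹ * y * t) := by rw [e]
        _ = ((t⁻¹ * (t⁻¹ * x * t) * t) * (t⁻¹ * x * t)) *
            ((t⁻¹ * (t⁻¹ * y * t) * t) * (t⁻¹ * y * t)) := by group
        _ = x * y := by rw [ihx, ihy]
    | inv x hx ih =>
      have e := hUc _ (hUt _ hx) _ (hUt _ (hUt _ hx))
      calc (t⁻¹ * (t⁻¹ * x⁻¹ * t) * t) * (t⁻¹ * x⁻¹ * t)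
          = ((t⁻¹ * x * t) * (t⁻¹ * (t⁻¹ * x * t) * t))⁻¹ := by group
        _ = ((t⁻¹ * (t⁻¹ * x * t) * t) * (t⁻¹ * x * t))⁻¹ := by rw [e]
        _ = x⁻¹ := by rw [ih]
  -- the relation of order `M` on `U`
  have haM : t ^ (-(M : ℤ)) * a * t ^ (M : ℤ) = a⁻¹ := by
    rw [← hMt]
    exact (inv_eq_of_mul_eq_one_right hM).symm
  have hMU : ∀ u ∈ U, t ^ (-(M : ℤ)) * u * t ^ (M : ℤ) = u⁻¹ := by
    intro u hu
    induction hu using Subgroup.closure_induction with
    | mem x hx =>
      rcases hx with rfl | hx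
      · exact haM
      · rw [Set.mem_singleton_iff] at hx
        rw [hx, hbt]
        have e1 : t ^ (-(M : ℤ)) * (t⁻¹ * a * t) * t ^ (M : ℤ) =
            t⁻¹ * (t ^ (-(M : ℤ)) * a * t ^ (M : ℤ)) * t := by
          have e2 : t ^ (-(M : ℤ)) * t⁻¹ = t⁻¹ * t ^ (-(M : ℤ)) := by
            rw [← zpow_neg_one, ← zpow_add, ← zpow_add, add_comm]
          have e3 : t * t ^ (M : ℤ) = t ^ (M : ℤ) * t := by
            rw [← zpow_one_add, ← zpow_add_one, add_comm]
          calc t ^ (-(M : ℤ)) * (t⁻¹ * a * t) * t ^ (M : ℤ)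
              = (t ^ (-(M : ℤ)) * t⁻¹) * a * (t * t ^ (M : ℤ)) := by group
            _ = (t⁻¹ * t ^ (-(M : ℤ))) * a * (t ^ (M : ℤ) * t) := by rw [e2, e3]
            _ = _ := by group
        rw [e1, haM]
        group
    | one => simp
    | mul x y hx hy ihx ihy =>
      calc t ^ (-(M : ℤ)) * (x * y) * t ^ (M : ℤ)
          = (t ^ (-(M : ℤ)) * x * t ^ (M : ℤ)) * (t ^ (-(M : ℤ)) * y * t ^ (M : ℤ)) := by group
        _ = x⁻¹ * y⁻¹ := by rw [ihx, ihy]
        _ = y⁻¹ * x⁻¹ := hUc _ (U.inv_mem hx) _ (U.inv_mem hy)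
        _ = (x * y)⁻¹ := by group
    | inv x hx ih =>
      calc t ^ (-(M : ℤ)) * x⁻¹ * t ^ (M : ℤ) = (t ^ (-(M : ℤ)) * x * t ^ (M : ℤ))⁻¹ := by group
        _ = x⁻¹⁻¹ := by rw [ih]
  let T : AddMonoid.End (Additive U) :=
    { toFun := fun u => Additive.ofMul ⟨t⁻¹ * ((Additive.toMul u : U) : G) * t,
        hUt _ (Additive.toMul u : U).2⟩
      map_zero' := by
        apply Additive.toMul.injective
        apply Subtype.ext
        change t⁻¹ * ((1 : U) : G) * t = 1
        simp
      map_add' := by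
        intro u v
        apply Additive.toMul.injective
        apply Subtype.ext
        change t⁻¹ * (((Additive.toMul u : U) : G) * ((Additive.toMul v : U) : G)) * t =
          (t⁻¹ * ((Additive.toMul u : U) : G) * t) * (t⁻¹ * ((Additive.toMul v : U) : G) * t)
        group }
  have hT : ∀ u : Additive U, ((Additive.toMul (T u) : U) : G) =
      t⁻¹ * ((Additive.toMul u : U) : G) * t := fun u => rfl
  have hTm : ∀ (m : ℕ) (u : Additive U), ((Additive.toMul ((T ^ m) u) : U) : G) =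
      t ^ (-(m : ℤ)) * ((Additive.toMul u : U) : G) * t ^ (m : ℤ) := by
    intro m
    induction m with
    | zero => intro u; simp
    | succ m ih =>
      intro u
      calc ((Additive.toMul ((T ^ (m + 1)) u) : U) : G)
          = ((Additive.toMul (T ((T ^ m) u)) : U) : G) := by rw [pow_succ']; rfl
        _ = t⁻¹ * ((Additive.toMul ((T ^ m) u) : U) : G) * t := rfl
        _ = t⁻¹ * (t ^ (-(m : ℤ)) * ((Additive.toMul u : U) : G) * t ^ (m : ℤ)) * t := by rw [ih]
        _ = _ := by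
          push_cast
          group
  have extA : ∀ u v : Additive U, ((Additive.toMul u : U) : G) = ((Additive.toMul v : U) : G) →
      u = v := by
    intro u v huv
    exact Additive.toMul.injective (Subtype.ext huv)
  have hT2 : T * T + T = 1 := by
    apply AddMonoidHom.ext
    intro u
    apply extA
    change (t⁻¹ * (t⁻¹ * ((Additive.toMul u : U) : G) * t) * t) *
      (t⁻¹ * ((Additive.toMul u : U) : G) * t) = ((Additive.toMul u : U) : G)
    exact hq _ (Additive.toMul u : U).2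
  have hTM : T ^ M = -1 := by
    apply AddMonoidHom.ext
    intro u
    apply extA
    exact (hTm M u).trans (hMU _ (Additive.toMul u : U).2)
  have hT1 : T * (T + 1) = 1 := by rw [mul_add, mul_one, hT2]
  have hT1' : (T + 1) * T = 1 := by rw [add_mul, one_mul, hT2]
  let L : Subring (AddMonoid.End (Additive U)) := Subring.closure {T}
  have hTL : T ∈ L := Subring.subset_closure rfl
  letI : CommRing L := Subring.closureCommRingOfComm (by
    rintro x hx y hy
    rw [Set.mem_singleton_iff] at hx hy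
    rw [hx, hy])
  let x : Lˣ :=
    { val := ⟨T, hTL⟩
      inv := ⟨T + 1, L.add_mem hTL L.one_mem⟩
      val_inv := Subtype.ext hT1
      inv_val := Subtype.ext hT1' }
  let v0 : Additive U := Additive.ofMul ⟨a, ha⟩
  refine ⟨L, inferInstance, x, fun p => ((Additive.toMul ((p : AddMonoid.End (Additive U)) v0) : U) : G),
    ?_, ?_, ?_, ?_, ?_, ?_⟩
  · apply Subtype.ext
    change T ^ 2 + T = 1
    rw [pow_two]; exact hT2
  · apply Subtype.ext
    change ((⟨T, hTL⟩ ^ M : L) : AddMonoid.End (Additive U)) = -1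
    rw [Subring.coe_pow]
    exact hTM
  · intro p
    obtain ⟨m, n, h⟩ := closure_form T hT2 p p.2
    refine ⟨m, n, Subtype.ext ?_⟩
    rw [h]
    change _ = (((m : L) + (n : L) * ⟨T, hTL⟩ : L) : AddMonoid.End (Additive U))
    rw [Subring.coe_add, Subring.coe_mul]
    rfl
  · intro p q
    rfl
  · rfl
  · intro p
    rfl

end Pool.Agent.Helper66.GD
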